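import Pool.Agent.Helper10.VR.Reduce

/-!
# Quasiconvex subgroups of virtually compact special hyperbolic groups are virtual retracts

We answer Q1 positively: if `G` is a word-hyperbolic group which is virtually compact special
(torsion is allowed), then every quasiconvex subgroup of `G` is a virtual retract of `G`.

## Conventions

* The Cayley graph of `G` with respect to `S` is Mathlib's `SimpleGraph.mulCayley S`
  (`x` and `y` are adjacent iff `x ≠ y` and `x⁻¹y` or `y⁻¹x` lies in `S`), and the word metric is
  the graph distance `SimpleGraph.dist`.
* CAT(0) cube complexes are given by their 1-skeleta: these are exactly the median graphs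
  (Chepoi, Gerasimov, Roller), the cube complex being recovered by filling in all cubes. The
  hyperplane dual to an edge `{a, b}` has the two (vertex sets of) halfspaces `halfspace X a b` and
  `halfspace X b a`, and two hyperplanes cross iff the four intersections of their halfspaces are
  nonempty.
* A group is compact special iff it acts freely and cocompactly on a CAT(0) cube complex such that
  the quotient (a compact nonpositively curved cube complex with fundamental group the given
  group) is special in the sense of Haglund and Wise. The four conditions on the hyperplanes of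
  the quotient are spelled out in terms of the action in `IsCompactSpecialAction`.
-/

namespace Pool.Agent.Results.MP_e55993_al.QuasiconvexVirtualRetract

universe u

/-! ### CAT(0) cube complexes (median graphs) and special actions -/

/-- In the graph `X`, the vertex `z` lies on a geodesic from `x` to `y`. -/
def OnGeodesic {V : Type u} (X : SimpleGraph V) (x z y : V) : Prop :=
  X.dist x z + X.dist z y = X.dist x y

/-- `X` is a median graph, that is, the 1-skeleton of a CAT(0) cube complex: `X` is connected and
any three vertices `x`, `y`, `z` have a unique median, i.e. a vertex lying on geodesics from `x`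
to `y`, from `y` to `z` and from `x` to `z`. -/
structure IsMedianGraph {V : Type u} (X : SimpleGraph V) : Prop where
  connected : X.Connected
  median : ∀ x y z : V, ∃! m : V, OnGeodesic X x m y ∧ OnGeodesic X y m z ∧ OnGeodesic X x m z

/-- For an edge `{a, b}` of a median graph: the halfspace, bounded by the hyperplane dual to
`{a, b}`, which contains `a`. It is the set of vertices closer to `a` than to `b`. -/
def halfspace {V : Type u} (X : SimpleGraph V) (a b : V) : Set V :=
  {x | X.dist x a < X.dist x b}

/-- The hyperplanes bounding the halfspaces `A` and `B` cross. -/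
def Cross {V : Type u} (A B : Set V) : Prop :=
  (A ∩ B).Nonempty ∧ (A ∩ Bᶜ).Nonempty ∧ (Aᶜ ∩ B).Nonempty ∧ (Aᶜ ∩ Bᶜ).Nonempty

/-- The group `Γ` acts freely and cocompactly by automorphisms on the CAT(0) cube complex with
1-skeleton `X`, and the quotient cube complex is special: its hyperplanes (the `Γ`-orbits of
hyperplanes of `X`) are two-sided, do not self-intersect, do not directly self-osculate and no two
of them inter-osculate. -/
structure IsCompactSpecialAction {V : Type u} (X : SimpleGraph V) (Γ : Type u) [Group Γ]
    [MulAction Γ V] : Prop where
  /-- `X` is the 1-skeleton of a CAT(0) cube complex. -/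
  median : IsMedianGraph X
  /-- `Γ` acts by graph automorphisms. -/
  adj_smul : ∀ (g : Γ) (x y : V), X.Adj x y → X.Adj (g • x) (g • y)
  /-- The action is free. -/
  free : ∀ (g : Γ) (x : V), g • x = x → g = 1
  /-- Every vertex has finitely many neighbours. -/
  locallyFinite : ∀ x, {y | X.Adj x y}.Finite
  /-- There are finitely many orbits of vertices. -/
  cofinite : ∃ F : Set V, F.Finite ∧ ∀ x, ∃ g : Γ, g • x ∈ F
  /-- Hyperplanes of the quotient are two-sided: no `g` exchanges the sides of a hyperplane. -/
  two_sided : ∀ (g : Γ) (x y : V), X.Adj x y → halfspace X (g • x) (g • y) ≠ halfspace X y x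
  /-- Hyperplanes of the quotient do not self-intersect: no hyperplane crosses a translate. -/
  no_self_intersection : ∀ (g : Γ) (x y : V), X.Adj x y →
    ¬ Cross (halfspace X x y) (halfspace X (g • x) (g • y))
  /-- No direct self-osculation: two distinct edges `{x, y}`, `{x, z}` at a vertex `x`, both
  oriented away from `x`, are never dual to the same oriented hyperplane of the quotient. -/
  no_direct_self_osculation : ∀ (g : Γ) (x y z : V), X.Adj x y → X.Adj x z → y ≠ z →
    halfspace X (g • x) (g • y) ≠ halfspace X x z
  /-- No inter-osculation: if two distinct edges `{x, y}`, `{x, z}` at a vertex `x` do not span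
  a square (equivalently their dual hyperplanes do not cross) then no translates of their dual
  hyperplanes cross. -/
  no_inter_osculation : ∀ (g : Γ) (x y z : V), X.Adj x y → X.Adj x z → y ≠ z →
    ¬ Cross (halfspace X x y) (halfspace X x z) →
      ¬ Cross (halfspace X x y) (halfspace X (g • x) (g • z))

/-- `Γ` is compact special: it is the fundamental group of a compact special cube complex, i.e.
it acts freely and cocompactly on a CAT(0) cube complex with special quotient. -/
def IsCompactSpecial (Γ : Type u) [Group Γ] : Prop :=
  ∃ (V : Type u) (_ : MulAction Γ V) (X : SimpleGraph V), IsCompactSpecialAction X Γ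

/-- `G` is virtually compact special: some finite index subgroup is compact special. -/
def IsVirtuallyCompactSpecial (G : Type u) [Group G] : Prop :=
  ∃ G₀ : Subgroup G, G₀.FiniteIndex ∧ IsCompactSpecial G₀

/-! ### Hyperbolic groups, quasiconvex subgroups, virtual retracts -/

/-- `G` is word-hyperbolic: for some finite generating set `S` the word metric satisfies Gromov's
four point condition for some `δ`. -/
def IsWordHyperbolic (G : Type u) [Group G] : Prop :=
  ∃ S : Set G, S.Finite ∧ Subgroup.closure S = ⊤ ∧ ∃ δ : ℕ, ∀ x y z w : G,
    (SimpleGraph.mulCayley S).dist x y + (SimpleGraph.mulCayley S).dist z w ≤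
      max ((SimpleGraph.mulCayley S).dist x z + (SimpleGraph.mulCayley S).dist y w)
        ((SimpleGraph.mulCayley S).dist x w + (SimpleGraph.mulCayley S).dist y z) + 2 * δ

/-- `H ≤ G` is quasiconvex: for some finite generating set `S` of `G` there is `κ` such that
every vertex on a geodesic of the Cayley graph joining two elements of `H` is at distance at most
`κ` from `H`. -/
def IsQuasiconvex {G : Type u} [Group G] (H : Subgroup G) : Prop :=
  ∃ S : Set G, S.Finite ∧ Subgroup.closure S = ⊤ ∧ ∃ κ : ℕ, ∀ h ∈ H, ∀ h' ∈ H, ∀ v : G,
    OnGeodesic (SimpleGraph.mulCayley S) h v h' → ∃ k ∈ H, (SimpleGraph.mulCayley S).dist v k ≤ κ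

/-- `H` is a virtual retract of `G`: there are a finite index subgroup `K` of `G` containing `H`
and a homomorphism `ρ : K → H` which is the identity on `H`. -/
def IsVirtualRetract {G : Type u} [Group G] (H : Subgroup G) : Prop :=
  ∃ K : Subgroup G, K.FiniteIndex ∧ ∃ hHK : H ≤ K, ∃ ρ : K →* H,
    ∀ h : H, ρ ⟨h, hHK h.2⟩ = h

/-- **Every quasiconvex subgroup of a word-hyperbolic virtually compact special group is a virtual
retract.** -/
theorem result (G : Type u) [Group G] (hG : IsWordHyperbolic G)
    (hs : IsVirtuallyCompactSpecial G) (H : Subgroup G) (hH : IsQuasiconvex H) :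
    IsVirtualRetract H := by
  obtain ⟨S₁, h1, h1', δ, hδ⟩ := hG
  obtain ⟨S₂, h2, h2', hκ⟩ := hH
  obtain ⟨G₀, hG₀, V, hact, X, hX⟩ := hs
  have hmed : Helper10.VR.IsMedian X := ⟨hX.median.connected, hX.median.median⟩
  have hS : Helper10.VR.CompactSpecialAction X G₀ :=
    { median := hmed
      adj := hX.adj_smul
      free := hX.free
      locallyFinite := hX.locallyFinite
      cofinite := hX.cofinite
      two_sided := hX.two_sided
      no_self_intersection := hX.no_self_intersection
      no_direct_self_osculation := hX.no_direct_self_osculation
      no_inter_osculation := hX.no_inter_osculation }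
  exact Helper10.VR.main G₀ hS h1 h1' h2 h2' hδ H hκ

end Pool.Agent.Results.MP_e55993_al.QuasiconvexVirtualRetract
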